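import Pool.Agent.Helper863_DC.Stm3

set_option autoImplicit false
set_option linter.unusedSectionVars false

open Pool.Agent.TH981.LO
open scoped BigOperators symmDiff Topology
open Filter

namespace Pool.Agent.H863.X2

section Graph

variable {V E : Type} [DecidableEq V] [DecidableEq E] (G : MG V E)

theorem DD_mono {w : E → ℝ} {F : Finset E} (hw0 : ∀ e ∈ F, 0 ≤ w e) (hw1 : ∀ e ∈ F, w e ≤ 1)
    (C : V → ZMod 2) {Ψ Ψ' : Finset E → ℝ} (h : ∀ ω, Ψ ω ≤ Ψ' ω) :
    DD G w F C Ψ ≤ DD G w F C Ψ' := by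
  classical
  unfold DD
  refine Finset.sum_le_sum fun ω hω => ?_
  rw [Finset.mem_powerset] at hω
  have h1 : 0 ≤ ∏ e ∈ F \ ω, (1 - w e ^ 2) := by
    refine Finset.prod_nonneg fun e he => ?_
    have he' := (Finset.mem_sdiff.1 he).1
    have := hw0 e he'
    have := hw1 e he'
    nlinarith
  have h2 : 0 ≤ nc G ω := by unfold nc; positivity
  have h3 : 0 ≤ ∑ ζ ∈ ω.powerset with G.bd ζ = C, (∏ e ∈ ζ, w e) * ∏ e ∈ ω \ ζ, w e ^ 2 := by
    refine Finset.sum_nonneg fun ζ hζ => ?_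
    have hζ' := Finset.mem_powerset.1 (Finset.mem_filter.1 hζ).1
    refine mul_nonneg (Finset.prod_nonneg fun e he => hw0 e (hω (hζ' he))) ?_
    exact Finset.prod_nonneg fun e _ => sq_nonneg _
  refine mul_le_mul_of_nonneg_right ?_ h3
  exact mul_le_mul_of_nonneg_left (h ω) (mul_nonneg h1 h2)

theorem DD_smul (w : E → ℝ) (F : Finset E) (C : V → ZMod 2) (c : ℝ) (Ψ : Finset E → ℝ) :
    DD G w F C (fun ω => c * Ψ ω) = c * DD G w F C Ψ := by
  classical
  unfold DD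
  rw [Finset.mul_sum]
  refine Finset.sum_congr rfl fun ω _ => ?_
  ring

/-- the expectation of a bounded function of the cluster -/
theorem EK_le (h2 : S_A2) {w : E → ℝ} {F : Finset E} (hw0 : ∀ e ∈ F, 0 ≤ w e)
    (hw1 : ∀ e ∈ F, w e ≤ 1) (x y : V) (Φ : Finset V → ℝ) (c : ℝ) (hΦ : ∀ K, Φ K ≤ c) :
    EK G w F x y Φ ≤ c * G.corr w F (two x y) := by
  classical
  have e1 : EK G w F x y (fun K => if x ∈ K then 1 else 0) = G.corr w F (two x y) := by
    rw [h2 G w F x y x hw0 hw1, MG.J339.two_self, G.corr_zero hw0, one_mul]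
  rw [← e1]
  unfold EK
  rw [← mul_div_assoc, ← DD_smul]
  refine div_le_div_of_nonneg_right ?_ (sq_nonneg _)
  refine DD_mono G hw0 hw1 _ fun ω => ?_
  have hx : x ∈ G.clF ω {x} := G.subset_clF ω {x} (Finset.mem_singleton_self x)
  simp only [hx, if_true, mul_one]
  exact hΦ _

theorem gk_le (hc : S_CMONO) {w : E → ℝ} {F : Finset E} (hw0 : ∀ e ∈ F, 0 ≤ w e)
    (hw1 : ∀ e ∈ F, w e ≤ 1) (K : Finset V) (u v : V) :
    gk G w F K u v ≤ G.corr w F (two u v) := by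
  unfold gk
  split_ifs with h
  · exact G.corr_nonneg _ hw0
  · refine hc G w w _ F _ (Finset.filter_subset _ _) (fun e he => ?_) (fun e _ => le_rfl) hw0 hw1
    exact hw0 e (Finset.filter_subset _ _ he)

/-- the truncated four point function is dominated by products of two point functions -/
theorem trunc_le (hc : S_CMONO) (h2 : S_A2) (h6 : S_A6) {w : E → ℝ} {F : Finset E}
    (hw0 : ∀ e ∈ F, 0 ≤ w e) (hw1 : ∀ e ∈ F, w e ≤ 1) (t a : V) (b : E) :
    Tr G w F t a b ≤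
      G.corr w F (two a (G.t b)) * G.corr w F (two t (G.s b)) +
        G.corr w F (two a (G.s b)) * G.corr w F (two t (G.t b)) := by
  have h := h6 G w F t a (G.s b) (G.t b) hw0 hw1
  unfold Tr MG.inc
  rw [h]
  exact add_le_add (EK_le G h2 hw0 hw1 _ _ _ _ fun K => gk_le G hc hw0 hw1 K _ _)
    (EK_le G h2 hw0 hw1 _ _ _ _ fun K => gk_le G hc hw0 hw1 K _ _)

theorem trunc_nonneg (hm : S_CMUL) {w : E → ℝ} {F : Finset E}
    (hw0 : ∀ e ∈ F, 0 ≤ w e) (hw1 : ∀ e ∈ F, w e ≤ 1) (t a : V) (b : E) :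
    0 ≤ Tr G w F t a b := by
  unfold Tr
  have := hm G w F (two t a) (G.inc b) hw0 hw1
  linarith

end Graph

/-- the bound -/
noncomputable def bnd (x : ℝ) (i : Fin 4) (p : Vt 4 × Vt 4) : ℝ :=
  GI x p.2 * GI x (p.1 - (p.2 + ev i)) + GI x (p.2 + ev i) * GI x (p.1 - p.2)

/-- first change of variables -/
def e1 (i : Fin 4) : Vt 4 × Vt 4 ≃ Vt 4 × Vt 4 where
  toFun := fun p => (p.2, p.1 - (p.2 + ev i))
  invFun := fun q => (q.2 + (q.1 + ev i), q.1)
  left_inv := fun p => by simp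
  right_inv := fun q => by simp

/-- second change of variables -/
def e2 (i : Fin 4) : Vt 4 × Vt 4 ≃ Vt 4 × Vt 4 where
  toFun := fun p => (p.2 + ev i, p.1 - p.2)
  invFun := fun q => (q.2 + (q.1 - ev i), q.1 - ev i)
  left_inv := fun p => by simp
  right_inv := fun q => by simp

theorem bnd_hasSum {x : ℝ} (hg : ∀ v, 0 ≤ GI x v) (hs : Summable (GI x)) (i : Fin 4) :
    HasSum (bnd x i) (2 * chiI x ^ 2) := by
  have hp : Summable (fun q : Vt 4 × Vt 4 => GI x q.1 * GI x q.2) :=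
    hs.mul_of_nonneg hs hg hg
  have hp1 : HasSum (fun q : Vt 4 × Vt 4 => GI x q.1 * GI x q.2) (chiI x ^ 2) := by
    have := hs.tsum_mul_tsum hs hp
    unfold chiI
    rw [sq, this]
    exact hp.hasSum
  have h1 := (e1 i).hasSum_iff.2 hp1
  have h2 := (e2 i).hasSum_iff.2 hp1
  have h3 := h1.add h2
  rw [two_mul]
  exact h3

/-- the finite volume summand -/
noncomputable def T (x : ℝ) (N : ℕ) (i : Fin 4) (p : Vt 4 × Vt 4) : ℝ :=
  if p.1 ∈ box 4 N ∧ (p.2, i) ∈ EB 4 N then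
    Tr (lat 4) (fun _ => x) (EB 4 N) 0 p.1 (p.2, i) else 0

theorem sum_eq (x : ℝ) (N : ℕ) :
    ∑ v ∈ box 4 N, ∑ b ∈ EB 4 N, Tr (lat 4) (fun _ => x) (EB 4 N) 0 v b =
      ∑ i : Fin 4, ∑' p : Vt 4 × Vt 4, T x N i p := by
  have h1 : ∀ i : Fin 4, ∑' p : Vt 4 × Vt 4, T x N i p =
      ∑ v ∈ box 4 N, ∑ u ∈ box 4 N, T x N i (v, u) := by
    intro i
    rw [← Finset.sum_product' (box 4 N) (box 4 N) (fun v u => T x N i (v, u))]
    refine tsum_eq_sum (s := box 4 N ×ˢ box 4 N) fun p hp => ?_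
    unfold T
    rw [if_neg]
    rintro ⟨h1, h2⟩
    apply hp
    rw [Finset.mem_product]
    refine ⟨h1, mem_box.2 (mem_EB.1 h2).1⟩
  simp_rw [h1]
  rw [Finset.sum_comm (s := (Finset.univ : Finset (Fin 4)))]
  refine Finset.sum_congr rfl fun v hv => ?_
  rw [Finset.sum_comm (s := (Finset.univ : Finset (Fin 4)))]
  have h2 : ∑ u ∈ box 4 N, ∑ i : Fin 4, T x N i (v, u) =
      ∑ b ∈ box 4 N ×ˢ (Finset.univ : Finset (Fin 4)), T x N b.2 (v, b.1) := by
    rw [Finset.sum_product]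
  rw [h2]
  have h3 : EB 4 N ⊆ box 4 N ×ˢ (Finset.univ : Finset (Fin 4)) := Finset.filter_subset _ _
  rw [← Finset.sum_subset h3]
  · refine Finset.sum_congr rfl fun b hb => ?_
    unfold T
    rw [if_pos ⟨hv, hb⟩]
  · intro b _ hb
    unfold T
    rw [if_neg]
    rintro ⟨-, h⟩
    exact hb h

/-- TARGET -/
theorem target (h0 : S_SI) (hc : S_CMONO) (hm : S_CMUL) (h2 : S_A2) (h6 : S_A6) : S_DLIM := by
  intro x hx0 hx1 hs
  obtain ⟨s1, s2, s3, s4, s5, s6, s7, s8⟩ := h0 x hx0 hx1.le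
  have hw0 : ∀ (F : Finset (Ed 4)), ∀ e ∈ F, 0 ≤ (fun _ : Ed 4 => x) e := fun _ _ _ => hx0
  have hw1 : ∀ (F : Finset (Ed 4)), ∀ e ∈ F, (fun _ : Ed 4 => x) e ≤ 1 := fun _ _ _ => hx1.le
  have hg : ∀ v, 0 ≤ GI x v := fun v => (s4 _).1
  have hcc : ∀ (F : Finset (Ed 4)) (a b : Vt 4),
      (lat 4).corr (fun _ => x) F (two a b) ≤ GI x (b - a) := fun F a b => by
    rw [← s6]; exact s1 F _
  have hT0 : ∀ N i p, 0 ≤ T x N i p := by
    intro N i p
    unfold T
    split_ifs with h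
    · exact trunc_nonneg _ hm (hw0 _) (hw1 _) _ _ _
    · exact le_rfl
  have hT1 : ∀ N i p, T x N i p ≤ bnd x i p := by
    intro N i p
    have hb : 0 ≤ bnd x i p := add_nonneg (mul_nonneg (hg _) (hg _)) (mul_nonneg (hg _) (hg _))
    unfold T
    split_ifs with h
    · refine (trunc_le _ hc h2 h6 (hw0 _) (hw1 _) _ _ _).trans ?_
      rw [lat_s, lat_t]
      unfold bnd
      have a1 := hcc (EB 4 N) p.1 (p.2 + ev i)
      have a2 := hcc (EB 4 N) 0 p.2
      have a3 := hcc (EB 4 N) p.1 p.2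
      have a4 := hcc (EB 4 N) 0 (p.2 + ev i)
      rw [sub_zero] at a2 a4
      rw [← s7, neg_sub] at a1 a3
      refine add_le_add ?_ ?_
      · rw [mul_comm]
        exact mul_le_mul a2 a1 (MG.corr_nonneg _ _ (hw0 _)) (hg _)
      · rw [mul_comm]
        exact mul_le_mul a4 a3 (MG.corr_nonneg _ _ (hw0 _)) (hg _)
    · exact hb
  have hbs := bnd_hasSum hg hs
  have hTs : ∀ N i, Summable (T x N i) := fun N i =>
    Summable.of_nonneg_of_le (hT0 N i) (hT1 N i) (hbs i).summable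
  have hlim : ∀ i : Fin 4, Tendsto (fun N : ℕ => ∑' p : Vt 4 × Vt 4, T x N i p) atTop
      (𝓝 (∑' p : Vt 4 × Vt 4, TI x i 0 p.1 p.2)) := by
    intro i
    refine tendsto_tsum_of_dominated_convergence (hbs i).summable (fun p => ?_)
      (Eventually.of_forall fun N p => ?_)
    · have h1 : Tendsto (fun N : ℕ => Tr (lat 4) (fun _ => x) (EB 4 N) 0 p.1 (p.2, i)) atTop
          (𝓝 (TI x i 0 p.1 p.2)) := by
        unfold Tr TI
        exact (s2 _).sub ((s2 _).mul (s2 _))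
      refine h1.congr' ?_
      filter_upwards [eventually_ge_atTop (nm p.1 + nm p.2 + 1)] with N hN
      unfold T
      rw [if_pos]
      refine ⟨mem_box.2 (by omega), mem_EB.2 ⟨?_, ?_⟩⟩
      · simp only; omega
      · have := nm_add_le p.2 (ev i)
        rw [nm_ev] at this
        simp only; omega
    · rw [Real.norm_eq_abs, abs_of_nonneg (hT0 N i p)]
      exact hT1 N i p
  refine ⟨?_, fun N => ⟨?_, ?_⟩⟩
  · simp_rw [sum_eq]
    exact tendsto_finsetSum _ fun i _ => hlim i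
  · rw [sum_eq]
    exact Finset.sum_nonneg fun i _ => tsum_nonneg (hT0 N i)
  · rw [sum_eq]
    calc ∑ i : Fin 4, ∑' p : Vt 4 × Vt 4, T x N i p ≤ ∑ _i : Fin 4, 2 * chiI x ^ 2 := by
          refine Finset.sum_le_sum fun i _ => ?_
          rw [← (hbs i).tsum_eq]
          exact (hTs N i).tsum_le_tsum (hT1 N i) (hbs i).summable
      _ = 8 * chiI x ^ 2 := by
          rw [Finset.sum_const, Finset.card_univ, Fintype.card_fin]
          simp only [nsmul_eq_mul]
          push_cast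
          ring

end Pool.Agent.H863.X2
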